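import Mathlib

set_option autoImplicit false

namespace Q117.Ecc

open SimpleGraph Finset

/-- `b(G)`: the largest number of vertices of an induced bipartite subgraph. -/
noncomputable def bipNum {V : Type} (G : SimpleGraph V) : ℕ :=
  sSup {k : ℕ | ∃ S : Finset V, (G.induce (S : Set V)).IsBipartite ∧ S.card = k}

/-- `l(v)`: the independence number of the subgraph induced on the open neighbourhood of `v`. -/
noncomputable def locInd {V : Type} (G : SimpleGraph V) (v : V) : ℕ :=
  (G.induce (G.neighborSet v)).indepNum

/-- `L(G) = max_v l(v)`. -/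
noncomputable def maxLocInd {V : Type} [Fintype V] (G : SimpleGraph V) : ℕ :=
  Finset.univ.sup (fun v => locInd G v)

/-- `ecc(v) = max_u d(v,u)`. -/
noncomputable def ecc {V : Type} [Fintype V] (G : SimpleGraph V) (v : V) : ℕ :=
  Finset.univ.sup (fun u => G.dist v u)

/-- The average eccentricity. -/
noncomputable def avgEcc {V : Type} [Fintype V] (G : SimpleGraph V) : ℝ :=
  (∑ v, (ecc G v : ℝ)) / (Fintype.card V : ℝ)

end Q117.Ecc
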