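import Mathlib
import Pool.Agent.Q117.Ecc.Basic

set_option autoImplicit false

namespace Q117.Ecc

open SimpleGraph Finset

variable {V : Type} {G : SimpleGraph V}

lemma le_bipNum [Fintype V] (S : Finset V) (hS : (G.induce (S : Set V)).IsBipartite) :
    S.card ≤ bipNum G := by
  apply le_csSup
  · refine ⟨Fintype.card V, ?_⟩
    rintro m ⟨T, _, rfl⟩
    exact Finset.card_le_univ T
  · exact ⟨S, hS, rfl⟩

lemma exists_locInd (v : V) : ∃ T : Finset V, (∀ u ∈ T, G.Adj v u) ∧
    (∀ u ∈ T, ∀ w ∈ T, ¬ G.Adj u w) ∧ T.card = locInd G v := by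
  classical
  unfold locInd
  obtain ⟨t, ht⟩ := (G.induce (G.neighborSet v)).exists_isNIndepSet_indepNum
  refine ⟨t.map (Function.Embedding.subtype _), ?_, ?_, ?_⟩
  · intro u hu
    rw [Finset.mem_map] at hu
    obtain ⟨u', _, rfl⟩ := hu
    exact u'.2
  · intro u hu w hw hadj
    rw [Finset.mem_map] at hu hw
    obtain ⟨u', hu', rfl⟩ := hu
    obtain ⟨w', hw', rfl⟩ := hw
    have hne : u' ≠ w' := fun h => hadj.ne (by rw [h])
    exact ht.isIndepSet hu' hw' hne hadj
  · rw [Finset.card_map, ht.card_eq]

/-- Build an induced bipartite subgraph from a star and pieces of a path. -/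
lemma bip_build [Fintype V] (v : V) (T : Finset V) (hT : ∀ u ∈ T, G.Adj v u)
    (hTi : ∀ u ∈ T, ∀ w ∈ T, ¬ G.Adj u w) (y : ℕ → V) (J : Finset ℕ) (col : ℕ → Fin 2)
    (hinj : ∀ i ∈ J, ∀ j ∈ J, y i = y j → i = j)
    (hv : ∀ i ∈ J, y i ≠ v ∧ ¬ G.Adj v (y i))
    (hTy : ∀ i ∈ J, ∀ u ∈ T, G.Adj u (y i) → col i = 0)
    (hP : ∀ i ∈ J, ∀ j ∈ J, G.Adj (y i) (y j) → col i ≠ col j) :
    1 + T.card + J.card ≤ bipNum G := by
  classical
  have hvT : v ∉ T := fun h => G.loopless.irrefl _ (hT v h)
  set S : Finset V := insert v (T ∪ J.image y) with hS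
  have hdisj : Disjoint T (J.image y) := by
    rw [Finset.disjoint_left]
    intro u hu hu'
    rw [mem_image] at hu'
    obtain ⟨i, hi, rfl⟩ := hu'
    exact (hv i hi).2 (hT _ hu)
  have hcard : S.card = 1 + T.card + J.card := by
    rw [hS, Finset.card_insert_of_notMem, Finset.card_union_of_disjoint hdisj,
      Finset.card_image_of_injOn]
    · ring
    · intro i hi j hj h
      exact hinj i hi j hj h
    · rw [mem_union, mem_image]
      rintro (h | ⟨i, hi, h⟩)
      · exact hvT h
      · exact (hv i hi).1 h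
  rw [← hcard]
  apply le_bipNum
  set c : V → Fin 2 := fun w => if w = v then 0 else if w ∈ T then 1 else
    if h : ∃ i, i ∈ J ∧ y i = w then col h.choose else 0 with hc
  have cv : c v = 0 := by simp [hc]
  have cT : ∀ u ∈ T, c u = 1 := by
    intro u hu
    have : u ≠ v := fun h => hvT (h ▸ hu)
    simp [hc, this, hu]
  have cy : ∀ i ∈ J, c (y i) = col i := by
    intro i hi
    have h1 : y i ∉ T := fun h => (hv i hi).2 (hT _ h)
    have h2 : ∃ j, j ∈ J ∧ y j = y i := ⟨i, hi, rfl⟩
    have h3 := h2.choose_spec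
    have h4 : h2.choose = i := hinj _ h3.1 _ hi h3.2
    simp only [hc]
    rw [if_neg (hv i hi).1, if_neg h1, dif_pos h2, h4]
  refine ⟨Coloring.mk (fun w => c w.1) ?_⟩
  rintro ⟨a, ha⟩ ⟨b, hb⟩ hadj
  have hadj' : G.Adj a b := hadj
  show c a ≠ c b
  have ha' := ha
  have hb' := hb
  rw [mem_coe, hS, mem_insert, mem_union, mem_image] at ha' hb'
  clear ha hb hadj
  rename' ha' => ha, hb' => hb
  rcases ha with rfl | ha | ⟨i, hi, rfl⟩
  · rcases hb with rfl | hb | ⟨j, hj, rfl⟩
    · exact absurd hadj' (G.loopless.irrefl _)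
    · rw [cv, cT b hb]; decide
    · exact absurd hadj' (hv j hj).2
  · rcases hb with rfl | hb | ⟨j, hj, rfl⟩
    · rw [cv, cT a ha]; decide
    · exact absurd hadj' (hTi a ha b hb)
    · rw [cT a ha, cy j hj, hTy j hj a ha hadj']; decide
  · rcases hb with rfl | hb | ⟨j, hj, rfl⟩
    · exact absurd hadj'.symm (hv i hi).2
    · rw [cT b hb, cy i hi, hTy i hi b hb hadj'.symm]; decide
    · rw [cy i hi, cy j hj]
      exact hP i hi j hj hadj'

/-- A geodesic as a sequence. -/
lemma exists_geodesic (hc : G.Connected) (u w : V) : ∃ y : ℕ → V, y 0 = u ∧ y (G.dist u w) = w ∧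
    (∀ i j, i ≤ j → j ≤ G.dist u w → G.dist (y i) (y j) = j - i) := by
  obtain ⟨p, hp⟩ := hc.exists_walk_length_eq_dist u w
  refine ⟨fun i => p.getVert i, ?_, ?_, ?_⟩
  · simp
  · rw [← hp]; simp
  · intro i j hij hj
    rw [← hp] at hj
    have h1 : G.dist u (p.getVert i) ≤ i := by
      have := dist_le (p.take i)
      rw [Walk.take_length] at this
      exact this.trans (min_le_left _ _)
    have h2 : G.dist (p.getVert j) w ≤ p.length - j := by
      have := dist_le (p.drop j)
      rw [Walk.drop_length] at this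
      exact this
    have h3 : G.dist (p.getVert i) (p.getVert j) ≤ j - i := by
      have := dist_le ((p.drop i).take (j - i))
      rw [Walk.take_length, Walk.drop_getVert] at this
      have e : i + (j - i) = j := by omega
      rw [e] at this
      exact this.trans (min_le_left _ _)
    have h4 : G.dist u w ≤ G.dist u (p.getVert i) + G.dist (p.getVert i) w :=
      hc.dist_triangle
    have h5 : G.dist (p.getVert i) w ≤ G.dist (p.getVert i) (p.getVert j) +
        G.dist (p.getVert j) w := hc.dist_triangle
    show G.dist (p.getVert i) (p.getVert j) = j - i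
    omega


/-- parity colour -/
def par (i : ℕ) : Fin 2 := if i % 2 = 0 then 0 else 1

lemma par_ne {i j : ℕ} (h : i + 1 = j ∨ j + 1 = i) : par i ≠ par j := by
  unfold par
  rcases Nat.mod_two_eq_zero_or_one i with h1 | h1 <;>
  rcases Nat.mod_two_eq_zero_or_one j with h2 | h2 <;>
  first
  | omega
  | (rw [if_pos h1, if_neg (by omega)]; decide)
  | (rw [if_neg (by omega), if_pos h2]; decide)

lemma le_ecc [Fintype V] (v u : V) : G.dist v u ≤ ecc G v :=
  Finset.le_sup (f := fun u => G.dist v u) (mem_univ u)

lemma exists_ecc [Fintype V] [Nonempty V] (v : V) : ∃ u, G.dist v u = ecc G v := by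
  obtain ⟨u, _, hu⟩ := Finset.exists_mem_eq_sup (univ : Finset V) univ_nonempty
    (fun u => G.dist v u)
  exact ⟨u, hu.symm⟩

lemma adj_of_geo {y : ℕ → V} {D : ℕ}
    (hy : ∀ i j, i ≤ j → j ≤ D → G.dist (y i) (y j) = j - i) {i j : ℕ} (hi : i ≤ D) (hj : j ≤ D)
    (h : G.Adj (y i) (y j)) : i + 1 = j ∨ j + 1 = i := by
  have h1 := dist_eq_one_iff_adj.2 h
  rcases le_total i j with hij | hij
  · have := hy i j hij hj
    omega
  · have := hy j i hij hi
    rw [dist_comm] at this
    omega

lemma inj_of_geo (hc : G.Connected) {y : ℕ → V} {D : ℕ}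
    (hy : ∀ i j, i ≤ j → j ≤ D → G.dist (y i) (y j) = j - i) {i j : ℕ} (hi : i ≤ D) (hj : j ≤ D)
    (h : y i = y j) : i = j := by
  rcases le_total i j with hij | hij
  · have h1 := hy i j hij hj
    rw [h, dist_self] at h1
    omega
  · have h1 := hy j i hij hi
    rw [h, dist_self] at h1
    omega

lemma claimA [Fintype V] (hc : G.Connected) (v : V) : locInd G v + ecc G v ≤ bipNum G := by
  have hne : Nonempty V := ⟨v⟩
  obtain ⟨T, hT, hTi, hTc⟩ := exists_locInd (G := G) v
  rcases Nat.eq_zero_or_pos (ecc G v) with h0 | hpos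
  · have := bip_build v T hT hTi (fun _ => v) ∅ (fun _ => 0) (by simp) (by simp) (by simp)
      (by simp)
    rw [Finset.card_empty] at this
    omega
  obtain ⟨u, hu⟩ := exists_ecc (G := G) v
  obtain ⟨y, hy0, _, hy⟩ := exists_geodesic hc v u
  rw [hu] at hy
  set e := ecc G v
  have hJ : ∀ i ∈ Finset.Icc 2 e, 2 ≤ i ∧ i ≤ e := fun i hi => Finset.mem_Icc.1 hi
  have hdist : ∀ i ∈ Finset.Icc 2 e, G.dist v (y i) = i := by
    intro i hi
    have := hy 0 i (Nat.zero_le _) (hJ i hi).2
    rw [hy0] at this
    omega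
  have h := bip_build v T hT hTi y (Finset.Icc 2 e) par
    (fun i hi j hj h => inj_of_geo hc hy (hJ i hi).2 (hJ j hj).2 h)
    (by
      intro i hi
      have h1 := hdist i hi
      have h2 := (hJ i hi).1
      constructor
      · intro h
        rw [h, dist_self] at h1
        omega
      · intro h
        have := dist_eq_one_iff_adj.2 h
        omega)
    (by
      intro i hi w hw hadj
      have h1 := hdist i hi
      have h2 := (hJ i hi).1
      have h3 : G.dist v (y i) ≤ G.dist v w + G.dist w (y i) := hc.dist_triangle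
      have h4 := dist_eq_one_iff_adj.2 (hT w hw)
      have h5 := dist_eq_one_iff_adj.2 hadj
      have : i = 2 := by omega
      rw [this]
      decide)
    (fun i hi j hj h => par_ne (adj_of_geo hy (hJ i hi).2 (hJ j hj).2 h))
  rw [Nat.card_Icc] at h
  omega

lemma claimB [Fintype V] (hc : G.Connected) (v a b : V) (hD : ecc G v + 2 ≤ G.dist a b) :
    locInd G v + G.dist a b ≤ bipNum G + 1 := by
  classical
  obtain ⟨T, hT, hTi, hTc⟩ := exists_locInd (G := G) v
  obtain ⟨y, hy0, hyD, hy⟩ := exists_geodesic hc a b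
  set D := G.dist a b with hDdef
  have hp : 2 ≤ G.dist v (y 0) := by
    have h1 : G.dist a b ≤ G.dist a v + G.dist v b := hc.dist_triangle
    have h2 := le_ecc (G := G) v b
    rw [hy0, dist_comm]
    omega
  have hq : 2 ≤ G.dist v (y D) := by
    have h1 : G.dist a b ≤ G.dist a v + G.dist v b := hc.dist_triangle
    have h2 := le_ecc (G := G) v a
    rw [dist_comm] at h2
    rw [hyD]
    omega
  have hTdist : ∀ i, ∀ w ∈ T, G.Adj w (y i) → G.dist v (y i) ≤ 2 := by
    intro i w hw hadj
    have h3 : G.dist v (y i) ≤ G.dist v w + G.dist w (y i) := hc.dist_triangle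
    have h4 := dist_eq_one_iff_adj.2 (hT w hw)
    have h5 := dist_eq_one_iff_adj.2 hadj
    omega
  have hvdist : ∀ i, 2 ≤ G.dist v (y i) → y i ≠ v ∧ ¬ G.Adj v (y i) := by
    intro i h2
    constructor
    · intro h
      rw [h, dist_self] at h2
      omega
    · intro h
      have := dist_eq_one_iff_adj.2 h
      omega
  have hstep : ∀ i, i + 1 ≤ D → G.dist v (y (i + 1)) ≤ G.dist v (y i) + 1 ∧
      G.dist v (y i) ≤ G.dist v (y (i + 1)) + 1 := by
    intro i hi
    have h1 := hy i (i + 1) (by omega) hi
    have h2 : G.dist v (y (i + 1)) ≤ G.dist v (y i) + G.dist (y i) (y (i + 1)) :=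
      hc.dist_triangle
    have h3 : G.dist v (y i) ≤ G.dist v (y (i + 1)) + G.dist (y (i + 1)) (y i) :=
      hc.dist_triangle
    rw [dist_comm (u := y (i + 1)) (v := y i)] at h3
    omega
  set W : Finset ℕ := (Finset.range (D + 1)).filter (fun i => G.dist v (y i) ≤ 2) with hW
  have hmemW : ∀ i, i ∈ W ↔ i ≤ D ∧ G.dist v (y i) ≤ 2 := by
    intro i
    rw [hW, mem_filter, mem_range]
    constructor <;> rintro ⟨h1, h2⟩ <;> exact ⟨by omega, h2⟩
  by_cases hWe : W.Nonempty
  · set α := W.min' hWe with hα
    set β := W.max' hWe with hβ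
    have hαW : α ∈ W := W.min'_mem hWe
    have hβW : β ∈ W := W.max'_mem hWe
    have hαle : ∀ i ∈ W, α ≤ i := fun i hi => W.min'_le i hi
    have hβle : ∀ i ∈ W, i ≤ β := fun i hi => W.le_max' i hi
    have hαβ : α ≤ β := hαle β hβW
    have hα1 := (hmemW α).1 hαW
    have hβ1 := (hmemW β).1 hβW
    have h4 : β ≤ α + 4 := by
      have h1 := hy α β hαβ hβ1.1
      have h2 : G.dist (y α) (y β) ≤ G.dist (y α) v + G.dist v (y β) := hc.dist_triangle
      rw [dist_comm (u := y α) (v := v)] at h2
      omega
    have hα2 : 2 ≤ G.dist v (y α) := by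
      rcases Nat.eq_zero_or_pos α with h0 | hpos
      · rw [h0]; exact hp
      · have h1 : α - 1 ∉ W := fun h => by have := hαle _ h; omega
        have h2 : 3 ≤ G.dist v (y (α - 1)) := by
          by_contra hcon
          exact h1 ((hmemW _).2 ⟨by omega, by omega⟩)
        have h3 := (hstep (α - 1) (by omega)).2
        have e : α - 1 + 1 = α := by omega
        rw [e] at h3
        omega
    have hβ2 : 2 ≤ G.dist v (y β) := by
      rcases Nat.lt_or_ge β D with hlt | hge
      · have h1 : β + 1 ∉ W := fun h => by have := hβle _ h; omega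
        have h2 : 3 ≤ G.dist v (y (β + 1)) := by
          by_contra hcon
          exact h1 ((hmemW _).2 ⟨by omega, by omega⟩)
        have h3 := (hstep β (by omega)).1
        omega
      · have : β = D := by omega
        rw [this]; exact hq
    set γ := max β (α + 2) with hγ
    have hγ1 : β ≤ γ := le_max_left _ _
    have hγ2 : α + 2 ≤ γ := le_max_right _ _
    have hγ3 : γ ≤ α + 4 := max_le h4 (by omega)
    have hγ4 : γ = β ∨ β < γ := by omega
    set J : Finset ℕ := (Finset.range (D + 1)).filter (fun i => i ≤ α ∨ γ ≤ i) with hJ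
    have hmemJ : ∀ i ∈ J, i ≤ D ∧ (i ≤ α ∨ γ ≤ i) := by
      intro i hi
      rw [hJ, mem_filter, mem_range] at hi
      exact ⟨by omega, hi.2⟩
    have hJ2 : ∀ i ∈ J, 2 ≤ G.dist v (y i) := by
      intro i hi
      obtain ⟨h1, h2⟩ := hmemJ i hi
      by_contra hcon
      have hiW : i ∈ W := (hmemW i).2 ⟨h1, by omega⟩
      have h5 := hαle i hiW
      have h6 := hβle i hiW
      rcases h2 with h2 | h2
      · have : i = α := by omega
        rw [this] at hcon
        omega
      · have : i = β := by omega
        rw [this] at hcon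
        omega
    have hcardJ : D + 1 ≤ J.card + 3 := by
      have hsub : Finset.range (D + 1) ⊆ J ∪ {α + 1, α + 2, α + 3} := by
        intro i hi
        rw [mem_union, hJ, mem_filter]
        by_cases h : i ≤ α ∨ γ ≤ i
        · left; exact ⟨hi, h⟩
        · right
          simp only [mem_insert, mem_singleton]
          omega
      have h1 := Finset.card_le_card hsub
      have h2 := Finset.card_union_le J {α + 1, α + 2, α + 3}
      have h3 : ({α + 1, α + 2, α + 3} : Finset ℕ).card ≤ 3 := Finset.card_le_three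
      rw [Finset.card_range] at h1
      omega
    set col : ℕ → Fin 2 := fun i => if i ≤ α then par (α - i) else par (i - γ) with hcol
    have h := bip_build v T hT hTi y J col
      (fun i hi j hj h => inj_of_geo hc hy (hmemJ i hi).1 (hmemJ j hj).1 h)
      (fun i hi => hvdist i (hJ2 i hi))
      (by
        intro i hi w hw hadj
        have h1 := hTdist i w hw hadj
        obtain ⟨h2, h3⟩ := hmemJ i hi
        have hiW : i ∈ W := (hmemW i).2 ⟨h2, h1⟩
        have h5 := hαle i hiW
        have h6 := hβle i hiW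
        rw [hcol]
        simp only
        rcases h3 with h3 | h3
        · have : i = α := by omega
          rw [if_pos h3, this, Nat.sub_self]
          decide
        · have h7 : i = γ := by omega
          rw [if_neg (by omega), h7, Nat.sub_self]
          decide)
      (by
        intro i hi j hj hadj
        have hi1 := hmemJ i hi
        have hj1 := hmemJ j hj
        have h1 := adj_of_geo hy hi1.1 hj1.1 hadj
        rw [hcol]
        simp only
        rcases hi1.2 with h2 | h2 <;> rcases hj1.2 with h3 | h3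
        · rw [if_pos h2, if_pos h3]
          apply par_ne
          omega
        · omega
        · omega
        · rw [if_neg (by omega), if_neg (by omega)]
          apply par_ne
          omega)
    omega
  · have hnotW : ∀ i, i ≤ D → 3 ≤ G.dist v (y i) := by
      intro i hi
      by_contra hcon
      exact hWe ⟨i, (hmemW i).2 ⟨hi, by omega⟩⟩
    have h := bip_build v T hT hTi y (Finset.range (D + 1)) par
      (fun i hi j hj h => inj_of_geo hc hy (by rw [mem_range] at hi; omega)
        (by rw [mem_range] at hj; omega) h)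
      (fun i hi => hvdist i (by have := hnotW i (by rw [mem_range] at hi; omega); omega))
      (by
        intro i hi w hw hadj
        have h1 := hTdist i w hw hadj
        have h2 := hnotW i (by rw [mem_range] at hi; omega)
        omega)
      (fun i hi j hj h => par_ne (adj_of_geo hy (by rw [mem_range] at hi; omega)
        (by rw [mem_range] at hj; omega) h))
    rw [Finset.card_range] at h
    omega

/-- The main inequality. -/
theorem main_floor [Fintype V] (hc : G.Connected) :
    ⌊avgEcc G + (maxLocInd G : ℝ)⌋ ≤ (bipNum G : ℤ) := by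
  have hne : Nonempty V := hc.nonempty
  obtain ⟨v, _, hv⟩ := Finset.exists_mem_eq_sup (univ : Finset V) univ_nonempty
    (fun v => locInd G v)
  have hL : maxLocInd G = locInd G v := hv
  obtain ⟨a, _, ha⟩ := Finset.exists_mem_eq_sup (univ : Finset V) univ_nonempty
    (fun v => ecc G v)
  have hmax : ∀ w, ecc G w ≤ ecc G a := by
    intro w
    rw [← ha]
    exact Finset.le_sup (f := fun v => ecc G v) (mem_univ w)
  obtain ⟨b, hb⟩ := exists_ecc (G := G) a
  have hn : (0 : ℝ) < Fintype.card V := by
    exact_mod_cast Fintype.card_pos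
  rw [hL]
  have hA := claimA hc v
  by_cases hall : ∀ w, ecc G w = ecc G a
  · have h1 : avgEcc G = ecc G a := by
      unfold avgEcc
      rw [Finset.sum_congr rfl (fun w _ => by rw [hall w]), Finset.sum_const, Finset.card_univ,
        nsmul_eq_mul]
      field_simp
    rw [h1]
    have h2 : ((ecc G a : ℝ) + (locInd G v : ℝ)) = (((ecc G a + locInd G v : ℕ) : ℤ) : ℝ) := by
      push_cast; ring
    rw [h2, Int.floor_intCast]
    have h3 := hall v
    have : ecc G a + locInd G v ≤ bipNum G := by omega
    exact_mod_cast this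
  · push Not at hall
    obtain ⟨w, hw⟩ := hall
    have hwlt : ecc G w < ecc G a := lt_of_le_of_ne (hmax w) hw
    have h1 : avgEcc G < ecc G a := by
      unfold avgEcc
      rw [div_lt_iff₀ hn]
      have h2 : ∑ x, (ecc G x : ℝ) < ∑ _x : V, (ecc G a : ℝ) := by
        apply Finset.sum_lt_sum
        · intro x _
          exact_mod_cast hmax x
        · exact ⟨w, mem_univ _, by exact_mod_cast hwlt⟩
      rw [Finset.sum_const, Finset.card_univ, nsmul_eq_mul] at h2
      linarith
    have h3 : locInd G v + ecc G a ≤ bipNum G + 1 := by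
      rcases Nat.lt_or_ge (ecc G v + 1) (ecc G a) with h | h
      · have := claimB hc v a b (by rw [hb]; omega)
        rw [hb] at this
        exact this
      · omega
    have h4 : ⌊avgEcc G + (locInd G v : ℝ)⌋ < (bipNum G : ℤ) + 1 := by
      rw [Int.floor_lt]
      push_cast
      have h5 : (locInd G v : ℝ) + (ecc G a : ℝ) ≤ (bipNum G : ℝ) + 1 := by exact_mod_cast h3
      linarith
    omega

end Q117.Ecc
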